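import Pool.Agent.Run7.h567.GO.AllBut

/-!
# MP_7742d9_nt: motives of algebraic cuspidal representations and Frobenius eigenvalues

`K` is a number field (for example `ℚ`), `Π` an algebraic cuspidal representation of `GL_n` over `K`, `n ≥ 2`,
whose `l`-adic representations `ρ l` exist (for example `Π` regular algebraic and polarized) and are
irreducible; their Frobenius polynomials `h v` are the Satake polynomials of `Π`. Clozel's conjecture
predicts that they are the realizations of a motive; in particular that they are subquotients of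
`H^i(X)(j)` for a smooth projective variety `X`.

If this holds for one `l` then it holds for all `l`; and it holds if (and only if) there are `X`, `i`, `j`
such that at all places outside a set of lower density zero all but at most ONE of the `n` Satake
parameters are Frobenius eigenvalues of `H^i(X)(j)`; then all `ρ l` are in the tensor category
generated by this one `H^i(X)(j)`.

The proof was written by helper300, helper590, helper646, helper842, helper930, helper973 and
helper567.
-/

set_option autoImplicit false

namespace Pool.Agent.Results.MP_7742d9_nt.AllButOneSatakeParameter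

open Run7.h567.GO Polynomial NumberField IsDedekindDomain Pool.Agent.W401.Cheb

theorem result (K : Type) [Field K] [NumberField K] (F : Type) [Field F] (Λ : Type) [Nonempty Λ]
    (E : Λ → Type) [∀ l, Field (E l)] [∀ l, CharZero (E l)] [∀ l, IsAlgClosed (E l)]
    [∀ l, TopologicalSpace (E l)] [∀ l, IsTopologicalRing (E l)] [∀ l, T2Space (E l)]
    (ι : ∀ l, F →+* E l) (𝓗 : Cohomology (numberField K) E ι) (n : ℕ) (hn : 2 ≤ n)
    (ρ : ∀ l, MRep (GK K) (E l) n) (hρ : ∀ l, Irred (ρ l))
    (h : HeightOneSpectrum (𝓞 K) → F[X]) (hh : ∀ l, HasFrobPoly (numberField K) (ι l) (ρ l) h) :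
    List.TFAE [
      ∃ l, 𝓗.Arises l (ρ l),
      ∀ l, 𝓗.Arises l (ρ l),
      ∃ x : 𝓗.I, ∀ l, InCat (𝓗.H l x) (ρ l),
      ∃ x : 𝓗.I, LargeSet {v | h v ∣ 𝓗.P x v ^ n},
      ∃ x : 𝓗.I, LargeSet {v | ∃ q, q ∣ h v ∧ q ∣ 𝓗.P x v ^ n ∧ n ≤ q.natDegree + 1}] :=
  compatible_one 𝓗 hn ρ hρ h hh

end Pool.Agent.Results.MP_7742d9_nt.AllButOneSatakeParameter
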