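import Pool.Agent.Run7.h736.AU.Gap3

/-!
# The gap theorem for the motives of cuspidal representations

Clozel's conjecture asks, for an algebraic cuspidal representation `Π` of `GL(n)` over `ℚ`, for an
absolutely irreducible motive `M` whose Frobenius eigenvalues are, after a shift of the weight, the Satake
parameters of `Π` at all primes.  Here `M` is only supposed to be *near* `Π`: the mean square over the
primes `p` of the difference of the traces of Frobenius on `M` and of the Satake parameters of `Π`, both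
normalised to weight `0`, is at most `K`; for example they agree at the primes outside a set of density
`δ`, and `K = (rank M + n)² δ`.  (The set of the bad primes may be infinite, the rank and the
irreducibility of `M` are not assumed, only the traces are compared.)  Nothing is known about `L(M, s)`,
its twists and `L(M ⊗ M^∨, s)` to the left of the line at the edge of absolute convergence.

1. Without any continuation: `L(M × π~, s)` has the size of a function with the order expected for
`M = M_Π` at the edge, within `√K`, for all cuspidal `π` together in the mean square, and the size of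
`L(M ⊗ M^∨, s)` is determined by them within `K`.
2. **The gap.**  There are no motives at a distance between `0` and `1`: if `K < 1` and if
`L(M × Π~, s)` and `L(M ⊗ M^∨, s)` have an order (are meromorphic) at the edge point, then the mean square
of the difference is `0`, and `L(M ⊗ M^∨, s)` has a simple pole, that is, `M` is absolutely irreducible as
far as the conjecture of Tate is concerned; all `L(M × π~, s)`, `π ≠ Π`, have size `0` at the edge without
continuation.  This is proved for all isobaric sums `Π = ∑ n_x Π_x`, for example for the sum of all the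
conjugates of `Π`, with multiplicities, which belongs to the motive over `ℚ` without coefficients
`Res M_Π`.  Then the pole of `L(M ⊗ M^∨, s)` has the order `∑ n_x²`, the dimension of the endomorphisms.
3. Disjointness and uniqueness: if `M` is near `Π` and `M'` is near `Π'`, then without continuation
`L(M ⊗ M'^∨, s)` has the size of a function with a simple pole, if `Π = Π'`, and of one without zero or
pole, if `Π ≠ Π'`, within `√K + √K' + √(KK')`; in particular if the order exists it is exactly this one if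
`K, K' < (√2 - 1)²`.
4. The gap for two motives: if `L(M ⊗ M^∨, s)`, `L(M' ⊗ M'^∨, s)` and `L(M ⊗ M'^∨, s)` have orders at the edge
point and the mean square distance is less than `1`, then it is `0` and the three orders are equal.

The definitions are in `Pool.Agent.Y149.TL.Defs` (motives, Euler factors, sizes, orders) and in
`Pool.Agent.Run7.h736.AU` (`Sys` in the file `Sys`, `IsCuspidal` in `Fam`, `IsTwist` and `IsSquare` in
`Mot`, `MeanSqLE` and `Hi` in `Mean`, `ntr` and `atr` in `Main`, `IsPairing` in `Gap1`, `Near` in `Gap3`).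
-/

set_option autoImplicit false

namespace Pool.Agent.Results.MP_7742d9_nt.ApproximateMotives

open Filter Topology Polynomial
open Pool.Agent.Y149.CM (LFun)
open Pool.Agent.Y149.TL (Motive edge size HasOrder)
open Run7.h736.AU

/-- **The gap theorem for motives near a cuspidal representation.**  `π_e`, `e ∈ ι`, are unitary cuspidal
automorphic representations of groups `GL(n_e)` over `ℚ` with the known properties of their
Rankin-Selberg `L`-functions, for example all those whose central character is trivial on the positive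
real numbers; `x = (e, τ)` stands for `Π_x = π_e ⊗ |det|^(-iτ)`.  `M`, `M'` are motives over `ℚ` in one
degree, of weights `w`, `w'`.  `s_x` is `log |L(M × π_e~, w/2 + 1 + iτ + ε)| / log(1/ε)`, and `r_x` is the order
of `L(M × π_e~, s)` at `w/2 + 1 + iτ`, if it exists.
1. Let `n_x` be integers, `0` for `x` outside a finite set `T`; let the `Π_x`, `x ∈ T`, satisfy the weak form
`Hi` of hypothesis H (for example, let them be tempered), and let the mean square of
`tr(M) - ∑ n_x tr(Π_x)` be at most `K`.  Then, without any continuation,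
(a) `∑_{x ∈ S} (s_x - n_x)² ≤ K + η` for every finite set `S`, `η > 0` and all small `ε > 0`;
(b) `-η ≤ s - 2 ∑ n_x s_x + ∑ n_x² ≤ K + η`, where `s = log |L(M ⊗ M^∨, 1 + ε)| / log(1/ε)`, for small `ε`;
(c) if `K < 1` and if the orders `-k` of `L(M ⊗ M^∨, s)` at `s = 1` and `r_x`, `x ∈ T`, exist, then
`k = ∑ n_x²`, the mean square of `tr(M) - ∑ n_x tr(Π_x)` is `0`, and `s_y` tends to `0` for all `y ∉ T`.
2. Let `M` be within `K` of `Π_x` and `M'` within `K'` of `Π_{x'}`, in the mean square, and `c = 1` if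
`Π_x = Π_{x'} ⊗ |det|^(-iτ)`, otherwise `c = 0`.  Then for all small `ε > 0` the number
`log |L(M ⊗ M'^∨, 1 + iτ + ε)| / log(1/ε)` differs from `c` by at most `√K + √K' + √K √K' + η`.  If the order
`-m` of `L(M ⊗ M'^∨, s)` at `1 + iτ` exists and `√K + √K' + √K √K' < 1`, then `m = c`.
3. If the mean square of `tr(M) - tr(M')` is less than `1` and if the orders `-k`, `-k'`, `-m` of
`L(M ⊗ M^∨, s)`, `L(M' ⊗ M'^∨, s)` and `L(M ⊗ M'^∨, s)` at `s = 1` exist, then `k = k' = m`, the mean square
is `0`, and the sizes of `L(M × π~, s)` and `L(M' × π~, s)` at all points of the edge lines have the same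
behaviour for all cuspidal `π`: the difference tends to `0`.
4. In particular let `Π_x` be tempered and let `tr(M) = tr(Π_x)` at almost all primes outside a set of
density `δ` with `(rank M + rank Π_x)² δ < 1`.  If the orders `-k` of `L(M ⊗ M^∨, s)` at `1` and `r_x`
exist, then `k = 1`, `r_x = -1`, the mean square of `tr(M) - tr(Π_x)` is `0`, and `s_y` tends to `0` for all
`y ≠ x`. -/
theorem result (ι : Type) (π : ι → Sys) (hπ : IsCuspidal π) :
    (∀ (M : Motive) (T : Finset (ι × ℝ)) (n : ι × ℝ → ℤ), (∀ x, x ∉ T → n x = 0) →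
      (∀ x ∈ T, Hi (π x.1).tr) → ∀ K : ℝ,
      MeanSqLE (fun p => ntr M p - ∑ x ∈ T, (n x : ℂ) * atr π x p) K →
      (∀ (S : Finset (ι × ℝ)) (B : ι × ℝ → Nat.Primes → ℂ[X]),
        (∀ x ∈ S, IsTwist M (π x.1) (B x)) → ∀ η : ℝ, 0 < η → ∀ᶠ ε : ℝ in 𝓝[>] 0,
        ∑ x ∈ S, (size M.weight (B x) x.2 ε - n x) ^ 2 ≤ K + η) ∧
      (∀ (D : Nat.Primes → ℂ[X]) (B : ι × ℝ → Nat.Primes → ℂ[X]), IsSquare M D →
        (∀ x ∈ T, IsTwist M (π x.1) (B x)) → ∀ η : ℝ, 0 < η → ∀ᶠ ε : ℝ in 𝓝[>] 0,
        -η ≤ size (2 * M.weight) D 0 ε - 2 * ∑ x ∈ T, n x * size M.weight (B x) x.2 ε +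
          ∑ x ∈ T, (n x : ℝ) ^ 2 ∧
        size (2 * M.weight) D 0 ε - 2 * ∑ x ∈ T, n x * size M.weight (B x) x.2 ε +
          ∑ x ∈ T, (n x : ℝ) ^ 2 ≤ K + η) ∧
      (K < 1 → ∀ (D : Nat.Primes → ℂ[X]) (k : ℤ) (B : ι × ℝ → Nat.Primes → ℂ[X]) (r : ι × ℝ → ℤ),
        IsSquare M D → HasOrder (2 * M.weight) D 0 (-k) →
        (∀ x ∈ T, IsTwist M (π x.1) (B x)) → (∀ x ∈ T, HasOrder M.weight (B x) x.2 (r x)) →
        k = ∑ x ∈ T, n x ^ 2 ∧
        MeanSqLE (fun p => ntr M p - ∑ x ∈ T, (n x : ℂ) * atr π x p) 0 ∧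
        ∀ y ∉ T, ∀ C : Nat.Primes → ℂ[X], IsTwist M (π y.1) C →
          Tendsto (fun ε => size M.weight C y.2 ε) (𝓝[>] 0) (𝓝 0))) ∧
    (∀ (M M' : Motive) (x x' : ι × ℝ) (K K' : ℝ), Hi (π x.1).tr → Hi (π x'.1).tr →
      Near π M x K → Near π M' x' K' → ∀ D : Nat.Primes → ℂ[X], IsPairing M M' D →
      ∀ (τ : ℝ) (c : ℤ),
      (x = (x'.1, x'.2 + τ) ∧ c = 1 ∨ x ≠ (x'.1, x'.2 + τ) ∧ c = 0) →
      (∀ η : ℝ, 0 < η → ∀ᶠ ε : ℝ in 𝓝[>] 0, LFun D (edge (M.weight + M'.weight) τ + ε) ≠ 0 ∧
        |size (M.weight + M'.weight) D τ ε - c| ≤ √K + √K' + √K * √K' + η) ∧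
      (√K + √K' + √K * √K' < 1 → ∀ m : ℤ, HasOrder (M.weight + M'.weight) D τ (-m) → m = c)) ∧
    (∀ (M M' : Motive) (K : ℝ), MeanSqLE (fun p => ntr M p - ntr M' p) K → K < 1 →
      ∀ (D D' E : Nat.Primes → ℂ[X]) (k k' m : ℤ), IsSquare M D → IsSquare M' D' →
      IsPairing M M' E → HasOrder (2 * M.weight) D 0 (-k) → HasOrder (2 * M'.weight) D' 0 (-k') →
      HasOrder (M.weight + M'.weight) E 0 (-m) →
      k = m ∧ k' = m ∧ MeanSqLE (fun p => ntr M p - ntr M' p) 0 ∧
      ∀ (x : ι × ℝ) (B B' : Nat.Primes → ℂ[X]), IsTwist M (π x.1) B → IsTwist M' (π x.1) B' →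
        Tendsto (fun ε => size M.weight B x.2 ε - size M'.weight B' x.2 ε) (𝓝[>] 0) (𝓝 0)) ∧
    ∀ (M : Motive) (x : ι × ℝ), (∀ p, p ∉ (π x.1).bad → ∀ z ∈ (π x.1).ev p, ‖z‖ ≤ 1) →
      ∀ (P : Set Nat.Primes) (δ : ℝ), MeanSqLE (P.indicator 1) δ →
      (∀ᶠ p in cofinite, p ∉ P → ntr M p = atr π x p) →
      ((M.rank : ℝ) + (π x.1).rank) ^ 2 * δ < 1 →
      ∀ (D B : Nat.Primes → ℂ[X]) (k r : ℤ), IsSquare M D → HasOrder (2 * M.weight) D 0 (-k) →
      IsTwist M (π x.1) B → HasOrder M.weight B x.2 r →
      k = 1 ∧ r = -1 ∧ Near π M x 0 ∧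
      ∀ y ≠ x, ∀ C : Nat.Primes → ℂ[X], IsTwist M (π y.1) C →
        Tendsto (fun ε => size M.weight C y.2 ε) (𝓝[>] 0) (𝓝 0) := by
  classical
  refine ⟨fun M T n hn hT K hK => ⟨fun S B hB η hη => iso_mean hπ M T n hn hT hK S hB hη,
      fun D B hD hB η hη => iso_square hπ M T n hT hK hD hB hη,
      fun hK1 D k B r hD hk hB hr => iso_gap hπ M T n hn hT hK hK1 hD hk hB hr⟩, ?_, ?_, ?_⟩
  · intro M M' x x' K K' hx hx' hK hK' D hD τ c hc
    have e : c = if x = (x'.1, x'.2 + τ) then 1 else 0 := by
      rcases hc with ⟨h1, h2⟩ | ⟨h1, h2⟩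
      · rw [if_pos h1, h2]
      · rw [if_neg h1, h2]
    refine ⟨fun η hη => ?_, fun hKK m hm => ?_⟩
    · have h1 := pair_near hπ hx hx' hK hK' hD τ hη
      rw [e]
      push_cast
      exact h1
    · rw [e]
      exact pair_order_near hπ hx hx' hK hK' hKK hD τ hm
  · intro M M' K hK hK1 D D' E k k' m hD hD' hE hk hk' hm
    obtain ⟨h1, h2, h3⟩ := two_gap M M' hK hK1 hD hD' hE hk hk' hm
    refine ⟨h1, h2, h3, fun x B B' hB hB' => ?_⟩
    rw [Metric.tendsto_nhds]
    intro δ hδ
    have h4 := two_mean hπ M M' h3 {x} (B := fun _ => B) (B' := fun _ => B')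
      (fun y hy => by rw [Finset.mem_singleton.1 hy]; exact hB)
      (fun y hy => by rw [Finset.mem_singleton.1 hy]; exact hB')
      (η := δ ^ 2 / 2) (by positivity)
    filter_upwards [h4] with ε h5
    rw [Finset.sum_singleton, zero_add] at h5
    rw [dist_zero_right, Real.norm_eq_abs]
    refine abs_lt_of_sq_lt_sq ?_ hδ.le
    have : 0 < δ ^ 2 := by positivity
    linarith
  · intro M x hx P δ hP hf hδ D B k r hD hk hB hr
    set n : ι × ℝ → ℤ := fun y => if y = x then 1 else 0 with hn
    have hn0 : ∀ y, y ∉ ({x} : Finset (ι × ℝ)) → n y = 0 := by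
      intro y hy
      rw [Finset.mem_singleton] at hy
      simp [hn, hy]
    have hn1 : n x = 1 := by simp [hn]
    have hT : ∀ y ∈ ({x} : Finset (ι × ℝ)), Hi (π y.1).tr := by
      intro y hy
      rw [Finset.mem_singleton.1 hy]
      exact hi_of_tempered hx
    have e1 : (fun p => ntr M p - ∑ y ∈ ({x} : Finset (ι × ℝ)), (n y : ℂ) * atr π y p) =
        fun p => ntr M p - atr π x p := by
      funext p
      rw [Finset.sum_singleton, hn1]
      simp
    have hK : MeanSqLE (fun p => ntr M p - atr π x p)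
        (((M.rank : ℝ) + (π x.1).rank) ^ 2 * δ) := by
      refine mean_of_density hP ?_ ?_
      · have h2 : ∀ᶠ p : Nat.Primes in cofinite, p ∉ (π x.1).bad := by
          rw [eventually_cofinite]
          simp only [not_not]
          exact Finset.finite_toSet _
        filter_upwards [ntr_le M, h2] with p h3 h4
        exact (norm_sub_le _ _).trans (add_le_add h3 (norm_atr hx h4))
      · filter_upwards [hf] with p h3 h4
        rw [h3 h4, sub_self]
    rw [← e1] at hK
    obtain ⟨h1, h2, h3⟩ := iso_gap hπ M {x} n hn0 hT hK hδ hD hk (B := fun _ => B)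
      (fun y hy => by rw [Finset.mem_singleton.1 hy]; exact hB) (r := fun _ => r)
      (fun y hy => by rw [Finset.mem_singleton.1 hy]; exact hr)
    have h4 := iso_single hπ M {x} n hn0 hT hK hδ x hB hr
    rw [Finset.sum_singleton, hn1] at h1
    rw [hn1] at h4
    rw [e1] at h2
    exact ⟨by rw [h1]; norm_num, h4, h2, fun y hy C hC =>
      h3 y (by rw [Finset.mem_singleton]; exact hy) C hC⟩

end Pool.Agent.Results.MP_7742d9_nt.ApproximateMotives
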