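import Pool.Agent.Run7.h427.CA.Res

/-!
# Artin motives attached to algebraic cuspidal representations, from solvable extensions

Let `Π` be an algebraic cuspidal representation of `GL_n` over a number field `F` such that in the
notation of Clozel's conjecture only `h_+` and `h_-` are not zero (for `n = 2` and `F = ℚ` these are the Maass
forms with eigenvalue `1 / 4` and the forms of weight `1`), and twist it to `w = 0`.  The motive of the
conjecture is then an Artin motive: a representation of the Galois group with finite image over a number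
field, with the Hecke polynomials `T v` of `Π` as characteristic polynomials of Frobenius.  Let the
`T v` be defined over the ring of integers of a number field `E`.  The base change of `Π` to a finite
extension `F'` is the system whose member at a place `w` of `F'` above `v ∉ S` has as roots the
`f (w / v)`-th powers of the roots of `T v`.

1. (`ResidualDescent`) Suppose that for infinitely many primes `𝔩` of `E` there are a finite field `k` above
the residue field of `𝔩` and *some* solvable extension `F'` of `F`, depending on `𝔩`, ramified wherever one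
likes, whose degree is prime to `ℓ (q - 1) (q ^ 2 - 1) ⋯ (q ^ n - 1)`, `q = |k|`, such that an absolutely irreducible
representation over `k` of the Galois group of `F'` is attached to the base change of `Π`, outside the
places above `ℓ`.  Then the Artin motive of `Π` exists over `F`, and at all places `v ∉ S` its Frobenius
polynomials are the `T v`.
2. (`AdicDescent`) The same follows from one continuous semisimple `ℓ`-adic representation over one
solvable extension, ramified wherever one likes, of degree divisible only by primes `p` with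
`[L (ζ_p) : L] > n`, `L` the extension of `ℚ_ℓ` generated by the coefficients: it has finite image and extends
to `F`.
3. (`ArtinDescent`) If the Artin motive of the base change exists over one solvable extension of degree
divisible only by primes `p` with `[E (ζ_p) : E] > n`, then the motive of `Π` exists over `F`, it extends the
given one in exactly one way, is defined over the same coefficient field, has the same endomorphisms
(so it is absolutely irreducible if and only if the given one is) and the compatibility with the local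
Langlands correspondence at all places, also at the ramified ones, follows from the compatibility
over `F'` (`local_`).

In 1 and 2 the `a v` are supposed to be in a finite set up to primes of lower density `η < 1 / n ^ 2`
(`FewTraces`), which holds if all conjugates of the `a v` have bounded mean square.
-/

set_option autoImplicit false

namespace Pool.Agent.Results.MP_7742d9_nt.ArtinMotivesDescend

open Matrix Filter Topology NumberField IsDedekindDomain Polynomial
open Run7.h427.CY Run7.h427.CZ Run7.h427.DS Run7.h427.CA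
open Pool.Agent.W401.Cheb Pool.Agent.W528.Ord

/-- `R` is an Artin motive of the system `Θ` with respect to the embedding `φ` of the coefficients: its
kernel is open and at all `v ∉ S` it is unramified and the characteristic polynomial of Frobenius is the
image of `T v`. -/
def IsArtin {F E : Type} [Field F] [NumberField F] [Field E] [NumberField E] {n : ℕ}
    (Θ : HeckeSystem F E n) {K : Type} [Field K] (φ : 𝓞 E →+* K) (R : GK F →* GL (Fin n) K) : Prop :=
  IsOpen (R.ker : Set (GK F)) ∧ ∀ v ∉ Θ.S, Θ.Matches φ R v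

/-- (1) from potential representations modulo infinitely many primes -/
def ResidualDescent : Prop :=
  ∀ (F E : Type) [Field F] [NumberField F] [Field E] [NumberField E] (n : ℕ)
    (Θ : HeckeSystem F E n), 0 < n → IsMonic Θ → Θ.FewTraces → (potPrimes Θ).Infinite →
    ∀ (K : Type) [Field K] [CharZero K] [IsAlgClosed K] (φ : 𝓞 E →+* K),
      ∃ R : GK F →* GL (Fin n) K, IsArtin Θ φ R

/-- `R` extends the representation `ρ` of `H`. -/
def Extends {F K : Type} [Field F] [NumberField F] [Field K] {n : ℕ} {H : Subgroup (GK F)}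
    (ρ : H →* GL (Fin n) K) (R : GK F →* GL (Fin n) K) : Prop :=
  ∀ (x : GK F) (hx : x ∈ H), R x = ρ ⟨x, hx⟩

/-- like `IsArtin`, at the `v ∉ S` which do not divide `ℓ` -/
def IsArtinAway {F E : Type} [Field F] [NumberField F] [Field E] [NumberField E] {n : ℕ}
    (Θ : HeckeSystem F E n) (ℓ : ℕ) {K : Type} [Field K] (φ : 𝓞 E →+* K)
    (R : GK F →* GL (Fin n) K) : Prop :=
  IsOpen (R.ker : Set (GK F)) ∧ ∀ v ∉ Θ.S, ((ℓ : ℕ) : 𝓞 F) ∉ v.asIdeal → Θ.Matches φ R v

/-- A continuous semisimple `ℓ`-adic representation `ρ` of the Galois group `H` of a field which is reached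
from `F` by cyclic extensions of prime degrees `p` with `[L (ζ_p) : L] > n` (`GoodLoc`), where `L` contains the
coefficients, attached to the base change of the system at the `v ∉ S` which do not divide `ℓ`. -/
structure AdicRep {F E : Type} [Field F] [NumberField F] [Field E] [NumberField E] {n : ℕ}
    (Θ : HeckeSystem F E n) (ℓ : ℕ) [Fact ℓ.Prime] where
  φ : 𝓞 E →+* PadicAlgCl ℓ
  L : IntermediateField ℚ_[ℓ] (PadicAlgCl ℓ)
  mem : ∀ x, φ x ∈ L
  H : Subgroup (GK F)
  isOpen : IsOpen (H : Set (GK F))
  reached : Reached F (GoodLoc L n) H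
  ρ : H →* GL (Fin n) (PadicAlgCl ℓ)
  cont : Continuous fun x => (ρ x : Matrix (Fin n) (Fin n) (PadicAlgCl ℓ))
  semis : Semis ρ
  match_of : ∀ v ∉ Θ.S, ((ℓ : ℕ) : 𝓞 F) ∉ v.asIdeal → AttachedOver ((Θ.T v).map φ) v H ρ

/-- (2) from one `ℓ`-adic representation of the Galois group `H` of one extension -/
def AdicDescent : Prop :=
  ∀ (F E : Type) [Field F] [NumberField F] [Field E] [NumberField E] (n : ℕ)
    (Θ : HeckeSystem F E n), 0 < n → IsMonic Θ → Θ.FewTraces →
    ∀ (ℓ : ℕ) [Fact ℓ.Prime] (r : AdicRep Θ ℓ),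
      (∃ R : GK F →* GL (Fin n) (PadicAlgCl ℓ), Extends r.ρ R ∧ IsArtinAway Θ ℓ r.φ R) ∧
      ∀ (K : Type) [Field K] [CharZero K] [IsAlgClosed K] (φ' : 𝓞 E →+* K),
        ∃ R : GK F →* GL (Fin n) K, IsArtinAway Θ ℓ φ' R

section

variable {F E : Type} [Field F] [NumberField F] [Field E] [NumberField E] {n : ℕ}

/-- the embedding of the coefficients -/
noncomputable abbrev emb (E : Type) [Field E] [NumberField E] : 𝓞 E →+* AlgebraicClosure E :=
  algebraMap (𝓞 E) (AlgebraicClosure E)

/-- `R` is the only extension of its restriction to `H` with the right characteristic polynomials. -/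
def OnlyExtension (Θ : HeckeSystem F E n) (H : Subgroup (GK F))
    (R : GK F →* GL (Fin n) (AlgebraicClosure E)) : Prop :=
  ∀ R' : GK F →* GL (Fin n) (AlgebraicClosure E), (∀ x ∈ H, R' x = R x) →
    (∀ v ∉ Θ.S, ∀ σ : GK F, IsFrob v σ →
      (R' σ : Matrix (Fin n) (Fin n) (AlgebraicClosure E)).charpoly = (Θ.T v).map (emb E)) → R' = R

/-- `R` is defined over the coefficient fields of `ρ`. -/
def SameCoefficients {H : Subgroup (GK F)} (ρ : H →* GL (Fin n) (AlgebraicClosure E))
    (R : GK F →* GL (Fin n) (AlgebraicClosure E)) : Prop :=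
  ∀ M : IntermediateField E (AlgebraicClosure E),
    (∀ x i j, (ρ x : Matrix (Fin n) (Fin n) (AlgebraicClosure E)) i j ∈ M) →
    ∀ x i j, (R x : Matrix (Fin n) (Fin n) (AlgebraicClosure E)) i j ∈ M

/-- The endomorphisms of `ρ` are endomorphisms of `R`. -/
def SameEndomorphisms {H : Subgroup (GK F)} (ρ : H →* GL (Fin n) (AlgebraicClosure E))
    (R : GK F →* GL (Fin n) (AlgebraicClosure E)) : Prop :=
  ∀ X : Matrix (Fin n) (Fin n) (AlgebraicClosure E),
    (∀ x, (ρ x : Matrix (Fin n) (Fin n) (AlgebraicClosure E)) * X = X * ρ x) →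
    ∀ x, (R x : Matrix (Fin n) (Fin n) (AlgebraicClosure E)) * X = X * R x

/-- A representation `φ` of a subgroup `D`, such as the decomposition group of a ramified place, with
characteristic polynomials over `E`, which is isomorphic to `ρ` on `D ∩ H`, is isomorphic to `R` on
`D`. -/
def KeepsLocal {H : Subgroup (GK F)} (ρ : H →* GL (Fin n) (AlgebraicClosure E))
    (R : GK F →* GL (Fin n) (AlgebraicClosure E)) : Prop :=
  ∀ (D : Subgroup (GK F)) (φ : D →* GL (Fin n) (AlgebraicClosure E))
    (A : GL (Fin n) (AlgebraicClosure E)),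
    (∀ x, ∃ P : E[X], (φ x : Matrix (Fin n) (Fin n) (AlgebraicClosure E)).charpoly =
      P.map (algebraMap E (AlgebraicClosure E))) →
    (∀ (x : D) (hx : (x : GK F) ∈ H), φ x = A * ρ ⟨x, hx⟩ * A⁻¹) → ∀ x : D, φ x = A * R x * A⁻¹

/-- The properties of the Artin motive `R` over `F` which extends the Artin motive `ρ` over the field
fixed by `H`. -/
structure IsDescent (Θ : HeckeSystem F E n) (H : Subgroup (GK F))
    (ρ : H →* GL (Fin n) (AlgebraicClosure E))
    (R : GK F →* GL (Fin n) (AlgebraicClosure E)) : Prop where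
  artin : IsArtin Θ (emb E) R
  semis : Semis R
  extends_ : Extends ρ R
  only : OnlyExtension Θ H R
  coefficients : SameCoefficients ρ R
  endomorphisms : SameEndomorphisms ρ R
  local_ : KeepsLocal ρ R

end

/-- (3) from one Artin motive over the field fixed by `H` -/
def ArtinDescent : Prop :=
  ∀ (F E : Type) [Field F] [NumberField F] [Field E] [NumberField E] (n : ℕ)
    (Θ : HeckeSystem F E n), 0 < n → IsMonic Θ →
    ∀ H : Subgroup (GK F), IsOpen (H : Set (GK F)) → Reached F (GoodGlob E n) H →
    ∀ ρ : H →* GL (Fin n) (AlgebraicClosure E), IsOpen (ρ.ker : Set H) → Semis ρ →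
      (∀ v ∉ Θ.S, AttachedOver ((Θ.T v).map (emb E)) v H ρ) →
      ∃ R : GK F →* GL (Fin n) (AlgebraicClosure E), IsDescent Θ H ρ R

/-- (4) solvable Galois extensions of good degree are reached by cyclic extensions of good prime
degrees -/
def SolvableReached : Prop :=
  ∀ (F : Type) [Field F] [NumberField F] (good : ℕ → Prop) (H : Subgroup (GK F)) (_ : H.Normal),
    IsOpen (H : Set (GK F)) → Group.IsSolvable (GK F ⧸ H) →
    (∀ p : ℕ, p.Prime → p ∣ H.index → good p) → Reached F good H

theorem residualDescent : ResidualDescent := by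
  intro F E _ _ _ _ n Θ hn hM hf hinf K _ _ _ φ
  exact of_modPrimes Θ hn hf (hinf.mono (modPrimes_of_pot Θ hn hM)) φ

theorem tower_loc {F : Type} [Field F] [NumberField F] {n ℓ : ℕ} [Fact ℓ.Prime]
    {L : IntermediateField ℚ_[ℓ] (PadicAlgCl ℓ)} {H : Subgroup (GK F)}
    (h : Reached F (GoodLoc L n) H) : Tower (Run7.h427.CZ.Aut L) n Set.univ H := by
  induction h with
  | base => exact Tower.top
  | step H H' p hp _ hle hn hi ih => exact tower_step hp ih hle hn hi

theorem tower_glob {F : Type} [Field F] [NumberField F] {n : ℕ} {E : Type} [Field E] [CharZero E]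
    {H : Subgroup (GK F)} (h : Reached F (GoodGlob E n) H) :
    Tower (Run7.h427.CA.Aut E) n Set.univ H := by
  induction h with
  | base => exact Tower.top
  | step H H' p hp _ hle hn hi ih =>
    obtain ⟨τ, hτ⟩ := Run7.h427.CA.exists_good hp
    exact Tower.step H H' p τ.toRingEquiv (fun x => τ.commutes x) hτ ih hle hn hi
      (Or.inl (Nat.cast_ne_zero.mpr hp.1.ne_zero))

theorem dens_bad {F E : Type} [Field F] [NumberField F] [Field E] [NumberField E] {n : ℕ}
    (Θ : HeckeSystem F E n) {q : ℕ} (hq : q ≠ 0) :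
    Tendsto (dens fun v : HeightOneSpectrum (𝓞 F) =>
      v ∉ {v | v ∉ Θ.S ∧ ((q : ℕ) : 𝓞 F) ∉ v.asIdeal}) atTop (𝓝 0) :=
  Run7.h427.DS.dens_finite _ (finite_bad Θ hq)

theorem adicDescent : AdicDescent := by
  intro F E _ _ _ _ n Θ hn hM hf ℓ _ ⟨φ, L, hL, H, hH, hR, ρ, hc, hs, hatt⟩
  have hℓ : ℓ ≠ 0 := (Fact.out : ℓ.Prime).ne_zero
  obtain ⟨R, h1, h2, h3, h4, h5, -, -, -, -⟩ := descent_full hn L (T := fun v => (Θ.T v).map φ)
    (V := {v | v ∉ Θ.S ∧ ((ℓ : ℕ) : 𝓞 F) ∉ v.asIdeal}) (dens_bad Θ hℓ)
    (fun v hv => (hM v hv.1).1.map _)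
    (fun v hv => by rw [(hM v hv.1).1.natDegree_map, (hM v hv.1).2])
    (fun v _ i => by
      rw [coeff_map]
      exact hL _) (tower_loc hR) hH hc hs
    (fun v hv Q hQ m hm σ h hfr => roots_of_aroots ((hatt v hv.1 hv.2).2 Q hQ m hm σ h hfr))
  have hm : ∀ v ∉ Θ.S, ((ℓ : ℕ) : 𝓞 F) ∉ v.asIdeal → Θ.Matches φ R v := by
    intro v hv hv'
    refine matches_of (h5 v ⟨hv, hv'⟩ (hatt v hv hv').1) fun σ hσ => ?_
    apply charpoly_eq_of_roots ((hM v hv).1.map _)
    obtain ⟨Q, hQ, hfQ⟩ := isFrob_above hσ
    have h6 := h4 v ⟨hv, hv'⟩ Q hQ 1 one_pos σ hfQ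
    simp only [pow_one, Multiset.map_id'] at h6
    exact h6
  have hbad : {v | ¬ Θ.Matches φ R v}.Finite := (finite_bad Θ hℓ).subset fun v hv hv' =>
    hv (hm v hv'.1 hv'.2)
  obtain ⟨h6, h7⟩ := finite_of_adic Θ hn hf φ R h1 h3 hbad
  refine ⟨⟨R, h2, h7, hm⟩, fun K _ _ _ φ' => ?_⟩
  obtain ⟨R', h8, h9⟩ := matches_transfer Θ φ R h6 h7 φ'
  exact ⟨R', h8, fun v hv hv' => h9 v (hm v hv hv')⟩

theorem artinDescent : ArtinDescent := by
  intro F E _ _ _ _ n Θ hn hM H hH hR ρ hρ hss hatt
  classical
  let K := AlgebraicClosure E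
  let P : HeightOneSpectrum (𝓞 F) → E[X] := fun v => (Θ.T v).map (algebraMap (𝓞 E) E)
  have hP : ∀ v, (P v).map (algebraMap E K) = (Θ.T v).map (algebraMap (𝓞 E) K) := by
    intro v
    rw [Polynomial.map_map, ← IsScalarTower.algebraMap_eq]
  have hV : Tendsto (dens fun v : HeightOneSpectrum (𝓞 F) => v ∉ (Θ.S)ᶜ) atTop (𝓝 0) := by
    simp only [Set.mem_compl_iff, not_not]
    exact Run7.h427.DS.dens_finite Θ.S Θ.finite_S
  have hT := tower_glob hR
  obtain ⟨R, h1, h2, h3, h4, h5, h6, h7, h8⟩ := descent_glob hn (P := P) hV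
    (fun v hv => (hM v hv).1.map _)
    (fun v hv => by rw [(hM v hv).1.natDegree_map, (hM v hv).2]) hT hH hρ hss
    (fun v hv Q hQ m hm σ h hfr => by
      have h9 := roots_of_aroots ((hatt v hv).2 Q hQ m hm σ h hfr)
      rw [h9]
      exact congrArg (fun Z : K[X] => Z.roots.map fun a => a ^ m) (hP v).symm)
  have hch : ∀ v ∉ Θ.S, ∀ σ : GK F, IsFrob v σ →
      (R σ : Matrix (Fin n) (Fin n) K).charpoly = (Θ.T v).map (algebraMap (𝓞 E) K) := by
    intro v hv σ hσ
    rw [h4 v hv σ hσ, hP]
  refine ⟨R, ⟨h1, fun v hv => matches_of (h5 v hv (hatt v hv).1) (hch v hv)⟩, h3, h2, ?_, h8, h7, ?_⟩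
  · intro R' hR' hR'v
    refine h6 R' (fun x hx => by rw [hR' x hx, h2 x hx]) fun v hv σ hσ => ?_
    rw [hR'v v hv σ hσ]
    exact (hP v).symm
  · intro D φ A hφ h9 x
    let _ : TopologicalSpace K := ⊥
    have _ : DiscreteTopology K := ⟨rfl⟩
    let ψ : D →* GL (Fin n) K := (MulAut.conj A).toMonoidHom.comp (R.comp D.subtype)
    have hψ : ∀ x : D, ψ x = A * R x * A⁻¹ := fun x => rfl
    rw [← hψ]
    let T : HeightOneSpectrum (𝓞 F) → K[X] := fun v =>
      if v ∈ Θ.S then X ^ n else (Θ.T v).map (algebraMap (𝓞 E) K)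
    have hTτ : ∀ τ ∈ Run7.h427.CA.Aut E, ∀ v, (T v).map (τ : K →+* K) = T v := by
      intro τ hτ v
      by_cases hv : v ∈ Θ.S
      · have : T v = X ^ n := if_pos hv
        rw [this, Polynomial.map_pow, map_X]
      · have : T v = (Θ.T v).map (algebraMap (𝓞 E) K) := if_neg hv
        rw [this, ← hP]
        exact Run7.h427.CA.map_aut hτ _
    refine tower_local (𝒯 := Run7.h427.CA.Aut E) (fun τ hτ y => smallEig_of_stable ?_)
      (fun τ hτ y => smallEig_of_stable ?_) hT (fun y hy => by rw [h9 y hy, hψ, h2 _ hy]) x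
    · obtain ⟨Z, hZ⟩ := hφ y
      rw [hZ]
      exact Run7.h427.CA.map_aut hτ _
    · rw [hψ, Run7.h427.PL.charpoly_conj]
      refine stable_all (K := K) hn continuous_of_discreteTopology (hTτ τ hτ) hV
        (continuous_of_ker R h1) h3 (fun v hv σ hσ => ?_) y
      have hv' : v ∉ Θ.S := not_not.mp hv
      have : T v = (Θ.T v).map (algebraMap (𝓞 E) K) := if_neg hv'
      rw [this]
      exact hch v hv' σ hσ

theorem solvableReached : SolvableReached := by
  intro F _ _ good H hHn hH hsolv hgood
  refine chain_induction hH (Reached F good) Reached.base ?_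
  intro M H' _ hle hn hp hdvd hR
  exact Reached.step M H' _ (hgood _ hp hdvd) hR hle hn rfl

/-- **Artin motives of algebraic cuspidal representations, from solvable extensions.** -/
theorem result : ResidualDescent ∧ AdicDescent ∧ ArtinDescent ∧ SolvableReached :=
  ⟨residualDescent, adicDescent, artinDescent, solvableReached⟩

end Pool.Agent.Results.MP_7742d9_nt.ArtinMotivesDescend
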