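import Pool.Agent.Run7.h798.Tate.AH

/-!
# MP_7742d9_nt, Q1: Clozel's conjecture and singular cubic hypersurfaces over `ℚ`

`D` is the theory of motives for absolute Hodge cycles over `ℚ` with coefficients in number fields. For a
scheme `X` over `ℚ` the object `h E r j X` is the motive given by the part of lowest weight of `H_{2j-r}(X)`
(homology with closed supports), twisted by `-j`; for `X` smooth projective of dimension `d` it is
`h^i(X)(d-j)` with `i = 2(d-j) + r`.
-/

set_option autoImplicit false

open CategoryTheory AlgebraicGeometry Pool.Agent.Y116.UV Pool.Agent.Q193.LT Pool.Agent.Q282.UK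
  Pool.Agent.Q282.UZ Run7.h798.UV Run7.h798.Tate Run7.h798.Tate.AH

namespace Pool.Agent.Results.MP_7742d9_nt.CubicHypersurfaces

/-- **Theorem.** Let `N` be a natural number. Clozel's conjecture is true if and only if every algebraic
cuspidal automorphic representation `Π` has a motive with the properties (1) and (2) which is a direct factor
of the motive given by the part of lowest weight of the homology, in dimension `j ≥ N`, of a singular cubic
hypersurface `∑_l z_l f_l(x, y) = 0` over `ℚ` (with extended coefficients), where every `f_l` is a sum of at
most three monomials `x_i y_j`.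

More precisely, for all coefficient fields `E` a motive `M` is a direct factor of `h^i(X)(m)`, `i - 2m = r`,
for a smooth projective scheme `X` over `ℚ` if and only if it is a direct factor of such a motive of weight
`r` of a cubic hypersurface. -/
theorem result {D : AH.Theory} (A : Cuspidal D) (N : ℕ) :
    (Clozel A ↔ ClozelCubic A N) ∧
      ∀ (E : Type) [Field E] [NumberField E] (r : ℤ) (M : D.Mot E), D.Smooth r M ↔ D.Cubic N r M :=
  ⟨clozel_iff A N, fun _ _ _ r M => motive_iff D N r M⟩

end Pool.Agent.Results.MP_7742d9_nt.CubicHypersurfaces
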